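import Mathlib
import Pool.Agent.Helper47.M.Defs

/-!
# Theorem M, block J: points in a chart, naturality

* `prod_delta`: finitely many conditions.
* `pt`: the points in a chart; `eq_pt`.
* `Fm_map`, `dF_map`, `Fm_lin`, `dF_lin`: naturality and linearity.
-/

set_option autoImplicit false

namespace Pool.Agent.Helper88.M

open MvPolynomial Pool.Agent.Helper47.M

/-- Finitely many generic conditions. -/
theorem prod_delta {ι I : Type} [Finite I] (Φ : I → ∀ (K : Type) [Field K] [CharZero K],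
      (ι → K) → Prop)
    (h : ∀ i : I, ∃ Δ : MvPolynomial ι ℚ, Δ ≠ 0 ∧ ∀ (K : Type) [Field K] [CharZero K]
      (c : ι → K), aeval c Δ ≠ 0 → Φ i K c) :
    ∃ Δ : MvPolynomial ι ℚ, Δ ≠ 0 ∧ ∀ (K : Type) [Field K] [CharZero K] (c : ι → K),
      aeval c Δ ≠ 0 → ∀ i, Φ i K c := by
  classical
  have := Fintype.ofFinite I
  choose D h0 h1 using h
  refine ⟨∏ i, D i, Finset.prod_ne_zero_iff.mpr fun i _ => h0 i, fun K _ _ c hc i => ?_⟩
  refine h1 i K c fun h2 => hc ?_
  rw [map_prod]
  exact Finset.prod_eq_zero (Finset.mem_univ i) h2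

section points

variable {k l : ℕ} {N : Fin k → ℕ} {e : Fin k → ℕ} {d : Fin l → Fin k → ℕ} {S S' : Type*}
  [CommRing S] [CommRing S']

/-- The point with the coordinates `w` of the factors other than `r`, and `y` of the factor `r`
in the chart `e0`. -/
def pt (r : Fin k) (e0 : Fin (N r + 1)) (w : {q : Vr N // q.1 ≠ r} → S)
    (y : {i : Fin (N r + 1) // i ≠ e0} → S) : Pt N S :=
  Function.update (fun j => Fin.cons 1 fun i => if h : j ≠ r then w ⟨⟨j, i⟩, h⟩ else 0) r
    (fun i => if h : i ≠ e0 then y ⟨i, h⟩ else 1)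

theorem pt_self (r : Fin k) (e0 : Fin (N r + 1)) (w : {q : Vr N // q.1 ≠ r} → S)
    (y : {i : Fin (N r + 1) // i ≠ e0} → S) (i : Fin (N r + 1)) :
    pt r e0 w y r i = if h : i ≠ e0 then y ⟨i, h⟩ else 1 := by
  simp [pt]

theorem pt_e0 (r : Fin k) (e0 : Fin (N r + 1)) (w : {q : Vr N // q.1 ≠ r} → S)
    (y : {i : Fin (N r + 1) // i ≠ e0} → S) : pt r e0 w y r e0 = 1 := by
  simp [pt]

theorem pt_ne (r : Fin k) (e0 : Fin (N r + 1)) (w : {q : Vr N // q.1 ≠ r} → S)
    (y : {i : Fin (N r + 1) // i ≠ e0} → S) (j : Fin k) (hj : j ≠ r) :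
    pt r e0 w y j = Fin.cons 1 fun i => w ⟨⟨j, i⟩, hj⟩ := by
  simp [pt, hj]

theorem pt_zero (r : Fin k) (e0 : Fin (N r + 1)) (w : {q : Vr N // q.1 ≠ r} → S)
    (y : {i : Fin (N r + 1) // i ≠ e0} → S) (j : Fin k) (hj : j ≠ r) :
    pt r e0 w y j 0 = 1 := by
  rw [pt_ne r e0 w y j hj]; rfl

theorem pt_ne_zero [Nontrivial S] (r : Fin k) (e0 : Fin (N r + 1))
    (w : {q : Vr N // q.1 ≠ r} → S) (y : {i : Fin (N r + 1) // i ≠ e0} → S) (j : Fin k) :
    pt r e0 w y j ≠ 0 := by
  intro h
  by_cases hj : j = r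
  · subst hj
    have := congrFun h e0
    rw [pt_e0] at this
    exact one_ne_zero this
  · have := congrFun h 0
    rw [pt_zero r e0 w y j hj] at this
    exact one_ne_zero this

theorem pt_map (f : S →+* S') (r : Fin k) (e0 : Fin (N r + 1)) (w : {q : Vr N // q.1 ≠ r} → S)
    (y : {i : Fin (N r + 1) // i ≠ e0} → S) :
    (fun j i => f (pt r e0 w y j i)) = pt r e0 (fun q => f (w q)) (fun i => f (y i)) := by
  funext j i
  by_cases hj : j = r
  · subst hj
    rw [pt_self, pt_self]
    split_ifs <;> simp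
  · rw [pt_ne r e0 w y j hj, pt_ne r e0 _ _ j hj]
    refine Fin.cases ?_ (fun i => ?_) i
    · simp
    · simp

/-- The form is linear in the coefficients. -/
theorem tv_lin [DecidableEq (Tx N d)] (c : Tx N d → S) (i : Fin l)
    (X : ∀ r, Fin (d i r) → Fin (N r + 1) → S) :
    tv (fun m => c ⟨i, m⟩) X =
      ∑ e, c e * tv (fun m => (Pi.single e 1 : Tx N d → S) ⟨i, m⟩) X := by
  unfold tv
  rw [Fintype.sum_sigma, Finset.sum_eq_single i]
  · refine Finset.sum_congr rfl fun m _ => ?_
    rw [Finset.sum_eq_single m]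
    · dsimp only
      rw [Pi.single_eq_same, one_mul]
    · intro m' _ h
      dsimp only
      rw [Pi.single_eq_of_ne (fun h' => h (by simpa using h')), zero_mul]
    · exact fun h => absurd (Finset.mem_univ m) h
  · intro i' _ h
    refine Finset.sum_eq_zero fun m _ => ?_
    rw [Finset.sum_eq_zero, mul_zero]
    intro m' _
    dsimp only
    rw [Pi.single_eq_of_ne (fun h' => h (congrArg Sigma.fst h').symm), zero_mul]
  · exact fun h => absurd (Finset.mem_univ i) h

theorem Fm_lin [DecidableEq (Tx N d)] (c : Tx N d → S) (x : Pt N S) (i : Fin l) :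
    Fm c x i = ∑ e, c e * Fm (Pi.single e 1) x i :=
  tv_lin c i _

theorem dF_lin [DecidableEq (Tx N d)] (c : Tx N d → S) (x : Pt N S) (j : Fin k)
    (b : Fin (N j + 1) → S) (i : Fin l) :
    dF c x j b i = ∑ e, c e * dF (Pi.single e 1) x j b i := by
  unfold dF dv
  simp_rw [Finset.mul_sum]
  rw [Finset.sum_comm]
  exact Finset.sum_congr rfl fun t _ => tv_lin c i _

theorem tv_map (f : S →+* S') (a : Tn N e → S) (X : ∀ r, Fin (e r) → Fin (N r + 1) → S) :
    f (tv a X) = tv (fun m => f (a m)) (fun r t i => f (X r t i)) := by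
  simp [tv, map_sum, map_mul, map_prod]

theorem slot_map (f : S →+* S') (x : Pt N S) (j : Fin k) (t : Fin (e j))
    (b : Fin (N j + 1) → S) :
    (fun r t' i => f (slot e x j t b r t' i)) =
      slot e (fun r i => f (x r i)) j t (fun i => f (b i)) := by
  funext r t' i
  unfold slot
  by_cases h : r = j
  · subst h
    rw [Function.update_self, Function.update_self]
    by_cases h' : t' = t
    · subst h'; rw [Function.update_self, Function.update_self]
    · rw [Function.update_of_ne h', Function.update_of_ne h']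
  · rw [Function.update_of_ne h, Function.update_of_ne h]

theorem Fm_map (f : S →+* S') (c : Tx N d → S) (x : Pt N S) (i : Fin l) :
    f (Fm c x i) = Fm (fun e => f (c e)) (fun r i => f (x r i)) i := by
  unfold Fm fv
  rw [tv_map]

theorem dF_map (f : S →+* S') (c : Tx N d → S) (x : Pt N S) (j : Fin k)
    (b : Fin (N j + 1) → S) (i : Fin l) :
    f (dF c x j b i) = dF (fun e => f (c e)) (fun r i => f (x r i)) j (fun i => f (b i)) i := by
  unfold dF dv
  rw [map_sum]
  refine Finset.sum_congr rfl fun t _ => ?_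
  rw [tv_map, slot_map]

end points

section gen

variable {k l : ℕ} {N : Fin k → ℕ} {d : Fin l → Fin k → ℕ} {K Ω : Type} [Field K] [Field Ω]
  [Algebra K Ω]

/-- A point is in the chart `e0`. -/
theorem eq_pt {c : Tx N d → K} {r : Fin k} {x : Pt N Ω} (h : GenPt K c r x)
    (e0 : Fin (N r + 1)) (he : x r e0 = 1) :
    x = pt r e0 (fun q => x q.1.1 q.1.2.succ) (fun i => x r i) := by
  funext j i
  by_cases hj : j = r
  · subst hj
    rw [pt_self]
    split_ifs with h1
    · rfl
    · rw [not_not.mp h1, he]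
  · rw [pt_ne r e0 _ _ j hj]
    refine Fin.cases ?_ (fun i => ?_) i
    · rw [Fin.cons_zero]; exact h.one j hj
    · rw [Fin.cons_succ]

end gen

end Pool.Agent.Helper88.M
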