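import Mathlib
import Pool.Agent.Helper47.M.Defs
import Pool.Agent.Helper66.M.Count
import Pool.Agent.Helper97.M.Spread
import Pool.Agent.Helper88.M.Pt

/-!
# Theorem M, block J: the engine

* `engine`: if a family of linear functionals of `c`, depending on independent parameters `w` and
  on `#V` auxiliary parameters `v`, has more than `#V` members and is always surjective, then for
  general `c` it never vanishes.
-/

set_option autoImplicit false

namespace Pool.Agent.Helper88.M

open MvPolynomial Pool.Agent.Helper47.M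

section engine

variable {ι κ V U : Type} [Fintype ι] [Fintype κ] [Fintype V] [Fintype U] [DecidableEq ι]

theorem engine
    (Lf : ∀ (S : Type) [CommRing S], (ι → S) → (κ → S) → (V → S) → U → S)
    (hnat : ∀ (S S' : Type) [CommRing S] [CommRing S'] (f : S →+* S') (c : ι → S) (w : κ → S)
      (v : V → S) (u : U), f (Lf S c w v u) =
        Lf S' (fun i => f (c i)) (fun i => f (w i)) (fun i => f (v i)) u)
    (hlin : ∀ (S : Type) [CommRing S] (c : ι → S) (w : κ → S) (v : V → S) (u : U),
      Lf S c w v u = ∑ e, c e * Lf S (Pi.single e 1) w v u)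
    (hs : ∀ (Ω : Type) [Field Ω] [CharZero Ω] (w : κ → Ω) (v : V → Ω) (t : U → Ω),
      ∃ c' : ι → Ω, ∀ u, Lf Ω c' w v u = t u)
    (hUV : Fintype.card V < Fintype.card U) :
    ∃ Δ : MvPolynomial ι ℚ, Δ ≠ 0 ∧ ∀ (K : Type) [Field K] [CharZero K] (c : ι → K),
      aeval c Δ ≠ 0 → ∀ (Ω : Type) [Field Ω] [Algebra K Ω] (w : κ → Ω) (v : V → Ω),
        AlgebraicIndependent K w →
          ¬ ∀ u, Lf Ω (fun i => algebraMap K Ω (c i)) w v u = 0 := by
  classical
  have key : ∀ (Ω : Type) [Field Ω] [CharZero Ω] (c : ι → Ω) (w : κ → Ω) (v : V → Ω) (u : U),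
      aeval (Sum.elim c (Sum.elim w v)) (Lf (MvPolynomial (ι ⊕ (κ ⊕ V)) ℚ)
        (fun i => X (Sum.inl i)) (fun i => X (Sum.inr (Sum.inl i)))
        (fun i => X (Sum.inr (Sum.inr i))) u) = Lf Ω c w v u := by
    intro Ω _ _ c w v u
    have := hnat _ _ (aeval (R := ℚ) (Sum.elim c (Sum.elim w v))).toRingHom
      (fun i => X (Sum.inl i)) (fun i => X (Sum.inr (Sum.inl i)))
        (fun i => X (Sum.inr (Sum.inr i))) u
    simpa using this
  obtain ⟨Δ, h0, h1⟩ := Pool.Agent.Helper97.M.spread (Set.range fun u => Lf (MvPolynomial (ι ⊕ (κ ⊕ V)) ℚ)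
        (fun i => X (Sum.inl i)) (fun i => X (Sum.inr (Sum.inl i)))
        (fun i => X (Sum.inr (Sum.inr i))) u) (by
    intro Ω _ _ c w v hG hind
    have hG' : ∀ u, Lf Ω c w v u = 0 := fun u => by
      rw [← key Ω c w v u]; exact hG _ ⟨u, rfl⟩
    refine absurd (Pool.Agent.Helper66.M.count c w v hind (fun u e => Lf Ω (Pi.single e 1) w v u) ?_ ?_ ?_)
      (not_le.mpr hUV)
    · intro u e
      let F := IntermediateField.adjoin ℚ (Set.range w ∪ Set.range v)
      have hw : ∀ i, w i ∈ F := fun i => IntermediateField.subset_adjoin _ _ (Or.inl ⟨i, rfl⟩)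
      have hv : ∀ i, v i ∈ F := fun i => IntermediateField.subset_adjoin _ _ (Or.inr ⟨i, rfl⟩)
      have := hnat F Ω (algebraMap F Ω) (Pi.single e 1) (fun i => ⟨w i, hw i⟩)
        (fun i => ⟨v i, hv i⟩) u
      have h2 : (fun i => algebraMap F Ω ((Pi.single e 1 : ι → F) i)) = Pi.single e 1 := by
        funext i
        by_cases h : i = e
        · subst h; simp
        · simp [Pi.single_eq_of_ne h]
      rw [h2] at this
      rw [show (Lf Ω (Pi.single e 1) w v u) = algebraMap F Ω _ from this.symm]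
      exact SetLike.coe_mem _
    · intro t
      obtain ⟨c', hc'⟩ := hs Ω w v t
      refine ⟨c', fun u => ?_⟩
      rw [← hc' u, hlin Ω c' w v u]
      exact Finset.sum_congr rfl fun e _ => mul_comm _ _
    · intro u
      rw [← hG' u, hlin Ω c w v u]
      exact Finset.sum_congr rfl fun e _ => mul_comm _ _)
  refine ⟨Δ, h0, fun K _ _ c hc Ω _ _ w v hw h2 => ?_⟩
  have : CharZero Ω := charZero_of_injective_algebraMap (algebraMap K Ω).injective
  refine h1 K c hc Ω w v hw ?_
  rintro _ ⟨u, rfl⟩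
  rw [key]
  exact h2 u

end engine

end Pool.Agent.Helper88.M
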